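import Pool.Agent.W4.CF.Stms3
import Pool.Agent.W347.CF.SZ

/-!
CD-SZC: integers `δ` of bounded size with `L(τ δ^k) = c` (Schwartz-Zippel), and integers of
bounded size.
-/

set_option autoImplicit false

namespace Pool.Agent.W563.CD

open NumberField Finset Pool.Agent.W4.CF Pool.Agent.W347.CF

theorem t_BOX : S_BOX := by
  classical
  intro K _ _
  obtain ⟨d, hd, b, c, hc, hb⟩ := coord K
  rw [← hd]
  refine ⟨(2 * c + 1) ^ d, by positivity, ?_⟩
  intro B hB s hs
  set N : ℕ := ⌊c * B⌋₊ with hN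
  set S : Finset ℤ := Icc (-(N : ℤ)) N with hS
  have hScard : S.card = 2 * N + 1 := by
    rw [hS, Int.card_Icc]
    omega
  have hsZ : s.card ≤ (Fintype.piFinset fun _ : Fin d => S).card := by
    apply Finset.card_le_card_of_injOn (fun δ => fun i => b.repr δ i)
    · intro δ hδ
      have h2 := hs δ hδ
      rw [Finset.mem_coe, Fintype.mem_piFinset]
      intro i
      rw [hS]
      have h3 := hb δ B h2 i
      have h4 : (b.repr δ i).natAbs ≤ N := by
        rw [hN]
        apply Nat.le_floor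
        rw [Nat.cast_natAbs, Int.cast_abs]
        exact h3
      show b.repr δ i ∈ Icc (-(N : ℤ)) (N : ℤ)
      rw [mem_Icc]
      omega
    · intro δ _ δ' _ h
      apply b.repr.injective
      ext i
      exact congrFun h i
  rw [Fintype.card_piFinset_const, hScard] at hsZ
  have hB0 : 0 < B := by linarith
  have h5 : ((2 * N + 1 : ℕ) : ℝ) ≤ (2 * c + 1) * B := by
    have : (N : ℝ) ≤ c * B := Nat.floor_le (by positivity)
    push_cast
    nlinarith
  calc (s.card : ℝ) ≤ (((2 * N + 1) ^ d : ℕ) : ℝ) := by exact_mod_cast hsZ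
    _ = ((2 * N + 1 : ℕ) : ℝ) ^ d := by push_cast; ring
    _ ≤ ((2 * c + 1) * B) ^ d := by gcongr
    _ = (2 * c + 1) ^ d * B ^ d := by rw [mul_pow]

theorem t_SZC : S_SZC := by
  classical
  intro K _ _ k hk
  obtain ⟨d, hd, b, c, hc, hb⟩ := coord K
  have hd1 : 1 ≤ d := by rw [hd]; exact Module.finrank_pos
  rw [← hd]
  refine ⟨k * (2 * c + 1) ^ (d - 1), by
    have : (0 : ℝ) < k := by
      have : 0 < k := by omega
      exact_mod_cast this
    positivity, ?_⟩
  intro L τ c0 hL hτ B hB s hs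
  -- the polynomial
  let P : MvPolynomial (Fin d) ℚ := ∑ f : Fin k → Fin d,
    MvPolynomial.C (L (τ * ∏ j, ((b (f j) : 𝓞 K) : K))) * ∏ j, MvPolynomial.X (f j)
  have heval : ∀ x : Fin d → ℚ, MvPolynomial.eval x P = L (τ * (∑ i, x i • ((b i : 𝓞 K) : K)) ^ k) := by
    intro x
    show MvPolynomial.eval x (∑ f : Fin k → Fin d,
      MvPolynomial.C (L (τ * ∏ j, ((b (f j) : 𝓞 K) : K))) * ∏ j, MvPolynomial.X (f j)) = _
    rw [map_sum, Fintype.sum_pow, Finset.mul_sum, map_sum]
    apply Finset.sum_congr rfl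
    intro f _
    rw [map_mul, MvPolynomial.eval_C, map_prod]
    simp only [MvPolynomial.eval_X]
    have e1 : τ * ∏ j, (x (f j) • ((b (f j) : 𝓞 K) : K)) =
        (∏ j, x (f j)) • (τ * ∏ j, ((b (f j) : 𝓞 K) : K)) := by
      simp only [Algebra.smul_def]
      rw [Finset.prod_mul_distrib, map_prod]
      ring
    rw [e1, map_smul, smul_eq_mul, mul_comm]
  have hP : P ≠ 0 := by
    intro h0
    apply hL
    apply lin_zero hk L hτ
    intro α
    -- `α` is a combination of the basis
    obtain ⟨m, hm, β, hβ⟩ : ∃ m : ℤ, m ≠ 0 ∧ ∃ β : 𝓞 K, (m : K) * α = β := by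
      obtain ⟨⟨β, ⟨m, hm⟩⟩, h⟩ := IsLocalization.surj (Algebra.algebraMapSubmonoid (𝓞 K) (nonZeroDivisors ℤ)) α
      obtain ⟨n, hn, rfl⟩ := hm
      refine ⟨n, nonZeroDivisors.ne_zero hn, β, ?_⟩
      rw [mul_comm]
      simpa using h
    have hmK : (m : K) ≠ 0 := by exact_mod_cast hm
    have hβ2 : ((β : 𝓞 K) : K) = ∑ i, ((b.repr β i : ℤ) : ℚ) • ((b i : 𝓞 K) : K) := by
      conv_lhs => rw [← b.sum_repr β]
      rw [RingOfIntegers.coe_eq_algebraMap, map_sum]
      apply Finset.sum_congr rfl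
      intro i _
      rw [zsmul_eq_mul, map_mul, map_intCast, Algebra.smul_def]
      simp
    have hα : α = ∑ i, (((b.repr β i : ℤ) : ℚ) / m) • ((b i : 𝓞 K) : K) := by
      have h1 : (m : K) * α = (m : K) * ∑ i, (((b.repr β i : ℤ) : ℚ) / m) • ((b i : 𝓞 K) : K) := by
        rw [hβ, hβ2, Finset.mul_sum]
        apply Finset.sum_congr rfl
        intro i _
        rw [Algebra.smul_def, Algebra.smul_def]
        rw [map_div₀]
        have : (algebraMap ℚ K) (m : ℚ) = (m : K) := by simp
        rw [this]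
        field_simp
      exact mul_left_cancel₀ hmK h1
    rw [hα, ← heval, h0, map_zero]
  set Q : MvPolynomial (Fin d) ℚ := P - MvPolynomial.C c0 with hQ
  have hQ0 : Q ≠ 0 := by
    intro h0
    apply hP
    have h1 : P = MvPolynomial.C c0 := sub_eq_zero.1 h0
    have h2 := heval 0
    rw [h1, MvPolynomial.eval_C] at h2
    have h3 : (∑ i, (0 : Fin d → ℚ) i • ((b i : 𝓞 K) : K)) = 0 := by
      apply Finset.sum_eq_zero
      intro i _
      simp
    rw [h3, zero_pow (by omega), mul_zero, map_zero] at h2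
    rw [h1, h2, map_zero]
  -- total degree
  have hdegP : P.totalDegree ≤ k := by
    apply MvPolynomial.totalDegree_finsetSum_le
    intro f _
    refine (MvPolynomial.totalDegree_mul _ _).trans ?_
    rw [MvPolynomial.totalDegree_C, zero_add]
    refine (MvPolynomial.totalDegree_finset_prod _ _).trans ?_
    simp [MvPolynomial.totalDegree_X]
  have hdeg : Q.totalDegree ≤ k := by
    refine (MvPolynomial.totalDegree_sub _ _).trans ?_
    rw [MvPolynomial.totalDegree_C]
    exact max_le hdegP (Nat.zero_le _)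
  set N : ℕ := ⌊c * B⌋₊ with hN
  set S : Finset ℚ := (Icc (-(N : ℤ)) N).image (fun z : ℤ => (z : ℚ)) with hS
  have hScard : S.card = 2 * N + 1 := by
    rw [hS, Finset.card_image_of_injective _ (fun a b h => by exact_mod_cast h), Int.card_Icc]
    omega
  have hsz := MvPolynomial.schwartz_zippel_totalDegree hQ0 S
  set Z := (Fintype.piFinset fun _ : Fin d => S).filter (fun f => MvPolynomial.eval f Q = 0) with hZ
  have hZc : Z.card ≤ k * (2 * N + 1) ^ (d - 1) := by
    have hpos : (0 : ℚ≥0) < (2 * N + 1 : ℕ) := by exact_mod_cast Nat.succ_pos _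
    rw [hScard] at hsz
    rw [div_le_div_iff₀ (pow_pos hpos _) hpos] at hsz
    have h1 : Z.card * (2 * N + 1) ≤ Q.totalDegree * (2 * N + 1) ^ d := by exact_mod_cast hsz
    have h2 : (2 * N + 1) ^ d = (2 * N + 1) ^ (d - 1) * (2 * N + 1) := by
      rw [← pow_succ]; congr 1; omega
    rw [h2, ← mul_assoc] at h1
    have h3 := Nat.le_of_mul_le_mul_right h1 (Nat.succ_pos _)
    exact h3.trans (Nat.mul_le_mul_right _ hdeg)
  -- the injection
  have hsZ : s.card ≤ Z.card := by
    apply Finset.card_le_card_of_injOn (fun δ => fun i => ((b.repr δ i : ℤ) : ℚ))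
    · intro δ hδ
      obtain ⟨h1, h2⟩ := hs δ hδ
      rw [hZ, Finset.mem_coe, mem_filter, Fintype.mem_piFinset]
      refine ⟨fun i => ?_, ?_⟩
      · rw [hS, mem_image]
        refine ⟨b.repr δ i, ?_, rfl⟩
        have h3 := hb δ B h2 i
        have h4 : (b.repr δ i).natAbs ≤ N := by
          rw [hN]
          apply Nat.le_floor
          rw [Nat.cast_natAbs, Int.cast_abs]
          exact h3
        rw [mem_Icc]
        omega
      · rw [hQ, map_sub, MvPolynomial.eval_C, heval, sub_eq_zero]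
        have : ((δ : 𝓞 K) : K) = ∑ i, ((b.repr δ i : ℤ) : ℚ) • ((b i : 𝓞 K) : K) := by
          conv_lhs => rw [← b.sum_repr δ]
          rw [RingOfIntegers.coe_eq_algebraMap, map_sum]
          apply Finset.sum_congr rfl
          intro i _
          rw [zsmul_eq_mul, map_mul, map_intCast, Algebra.smul_def]
          simp
        rw [← this]
        exact h1
    · intro δ _ δ' _ h
      apply b.repr.injective
      ext i
      have := congrFun h i
      simpa using this
  have hB0 : 0 < B := by linarith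
  have h5 : ((2 * N + 1 : ℕ) : ℝ) ≤ (2 * c + 1) * B := by
    have : (N : ℝ) ≤ c * B := Nat.floor_le (by positivity)
    push_cast
    nlinarith
  calc (s.card : ℝ) ≤ ((k * (2 * N + 1) ^ (d - 1) : ℕ) : ℝ) := by exact_mod_cast hsZ.trans hZc
    _ = k * ((2 * N + 1 : ℕ) : ℝ) ^ (d - 1) := by push_cast; ring
    _ ≤ k * ((2 * c + 1) * B) ^ (d - 1) := by gcongr
    _ = k * (2 * c + 1) ^ (d - 1) * B ^ (d - 1) := by rw [mul_pow]; ring

end Pool.Agent.W563.CD
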